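import Mathlib
import Pool.Agent.N425.P3.Main

set_option autoImplicit false

/-!
# Equal-degree vertices joined by a path of length three

Let `n ≥ 2` and let `G` be a graph with `2 n + 1` vertices.

* If `G` has at least `n ^ 2 + n + 1` edges, then two distinct vertices of equal degree are joined
  by a path of length three (the question of Erdős and Hajnal, for every `n ≥ 2`).
* If `G` has at least `n ^ 2 + n` edges and there are no such vertices, then `G` is the complete
  bipartite graph with classes of `n` and `n + 1` vertices.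

Proof. Suppose that there are no such vertices, `e ≥ n ^ 2 + n`, and write `N = 2 n + 1`.

(1) Two nonadjacent vertices `x`, `x'` have the same degree `d ≥ n + 1`. There are no edges between
`N(x)` and `N(x')`. Let `C = N(x) ∩ N(x')`, `t = |N(x) \ N(x')| = |N(x') \ N(x)|`, and let `R` be the
set of the `r` other vertices. Then `t + r ≤ n`, the vertices of `C` have all their neighbours in `R`,
and `|C| ≥ r + 1`, so that two of them have the same degree. Let `δ` be the largest repeated degree in
`C`, `k = r - δ`. The degrees larger than `δ` in `C` are distinct, and each vertex of one of the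
neighbourhoods of size `δ` has at most `k` neighbours in `R`. Summing up the degrees one gets
`e ≤ n ^ 2 + n`, with equality only if `t = k = 0`, `r = n` and `G` is complete bipartite.

(2) Two adjacent vertices have the same degree `d ≥ n + 1`. Now the degrees in `C` are distinct, and
the same count gives `e ≤ n ^ 2 + 2`, and less than `6` if `n = 2`.

(3) All degrees larger than `n` are distinct. Let `u` be a vertex of the largest degree `n + 1 + b`,
`a = n - b`. If two neighbours `y`, `y'` of `u` have the same degree, then `u` and `y` have no common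
neighbour except possibly `y'`. Hence in the neighbourhood of `u` no degree larger than `a + 1` is
repeated, and `a + 1` occurs at most twice. So
`2 e ≤ 2 n ^ 2 + n + 2 + b + b ^ 2 - b n < 2 (n ^ 2 + n)` for `1 ≤ b ≤ n - 1`, `n ≥ 3`, and
`2 e ≤ 2 n ^ 2 + n + 1` if `b = 0`.
-/

namespace Pool.Agent.Results.MP_b875bc_co.EqualDegreePath

/-- Let `n ≥ 2` and let `G` be a graph with `2 n + 1` vertices. If `G` has at least
`n ^ 2 + n + 1` edges, two distinct vertices of equal degree are joined by a path of length three.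
If `G` has at least `n ^ 2 + n` edges, the same is true unless `G` is a complete bipartite graph
with classes of `n` and `n + 1` vertices. -/
theorem result (n : ℕ) (hn : 2 ≤ n) {V : Type*} [Fintype V] (G : SimpleGraph V)
    [DecidableRel G.Adj] (hV : Fintype.card V = 2 * n + 1) :
    (n ^ 2 + n + 1 ≤ G.edgeFinset.card →
      ∃ x₁ x₂ : V, x₁ ≠ x₂ ∧ G.degree x₁ = G.degree x₂ ∧
        ∃ p : G.Walk x₁ x₂, p.IsPath ∧ p.length = 3) ∧
    (n ^ 2 + n ≤ G.edgeFinset.card →
      (∃ x₁ x₂ : V, x₁ ≠ x₂ ∧ G.degree x₁ = G.degree x₂ ∧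
        ∃ p : G.Walk x₁ x₂, p.IsPath ∧ p.length = 3) ∨
      ∃ R : Finset V, R.card = n ∧ ∀ v w, G.Adj v w ↔ ((v ∈ R ∧ w ∉ R) ∨ (v ∉ R ∧ w ∈ R))) := by
  classical
  have key : (¬ ∃ x₁ x₂ : V, x₁ ≠ x₂ ∧ G.degree x₁ = G.degree x₂ ∧
        ∃ p : G.Walk x₁ x₂, p.IsPath ∧ p.length = 3) → Pool.Agent.N425.P3.NoPath G := by
    intro hno x₁ y₁ y₂ x₂ h1 h2 h3 h12 h13 h23 hd
    apply hno
    refine ⟨x₁, x₂, h12, hd, SimpleGraph.Walk.cons h1 (SimpleGraph.Walk.cons h2
      (SimpleGraph.Walk.cons h3 SimpleGraph.Walk.nil)), ?_, rfl⟩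
    rw [SimpleGraph.Walk.isPath_def]
    simp [h1.ne, h2.ne, h3.ne, h12, h13, h23]
  have second : n ^ 2 + n ≤ G.edgeFinset.card →
      (∃ x₁ x₂ : V, x₁ ≠ x₂ ∧ G.degree x₁ = G.degree x₂ ∧
        ∃ p : G.Walk x₁ x₂, p.IsPath ∧ p.length = 3) ∨
      ∃ R : Finset V, R.card = n ∧ ∀ v w, G.Adj v w ↔
        ((v ∈ R ∧ w ∉ R) ∨ (v ∉ R ∧ w ∈ R)) := by
    intro he
    by_cases hno : ∃ x₁ x₂ : V, x₁ ≠ x₂ ∧ G.degree x₁ = G.degree x₂ ∧
        ∃ p : G.Walk x₁ x₂, p.IsPath ∧ p.length = 3
    · exact Or.inl hno
    · exact Or.inr (Pool.Agent.N425.P3.main (key hno) n hn hV he)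
  refine ⟨fun he => ?_, second⟩
  rcases second (by omega) with h | ⟨R, hR, hB⟩
  · exact h
  · exfalso
    have := Pool.Agent.N425.P3.bip_edges n hV R hR hB
    omega

end Pool.Agent.Results.MP_b875bc_co.EqualDegreePath
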